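import Mathlib

/-!
Corner-free sets whose rows form a set system of small VC dimension.
-/

namespace Pool.Agent.H523R2.VC

open Finset

variable {G : Type*} [AddCommGroup G] [Fintype G] [DecidableEq G]

/-- the row of `A` over `x` -/
def row (A : Finset (G × G)) (x : G) : Finset G := univ.filter (fun y => (x, y) ∈ A)

/-- no nontrivial corner -/
def NC (A : Finset (G × G)) : Prop :=
  ∀ x y z : G, z ≠ 0 → ¬ ((x, y) ∈ A ∧ (x, y + z) ∈ A ∧ (x + z, y) ∈ A)

lemma card_eq_sum_row (A : Finset (G × G)) : A.card = ∑ x : G, (row A x).card := by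
  rw [card_eq_sum_card_fiberwise (f := Prod.fst) (t := univ) (fun _ _ => mem_univ _)]
  refine sum_congr rfl fun x _ => ?_
  refine card_bij (fun p _ => p.2) ?_ ?_ ?_
  · rintro ⟨a, b⟩ h
    simp only [mem_filter] at h
    simp only [row, mem_filter, mem_univ, true_and]
    rw [← h.2]; exact h.1
  · rintro ⟨a, b⟩ h ⟨a', b'⟩ h' e
    simp only [mem_filter] at h h'
    simp only at e
    rw [Prod.mk.injEq]
    exact ⟨h.2.trans h'.2.symm, e⟩
  · intro y hy
    simp only [row, mem_filter, mem_univ, true_and] at hy
    exact ⟨(x, y), by simp [hy], rfl⟩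

/-- A class of rows that are pairwise close is small. -/
lemma class_sq (A : Finset (G × G)) (hA : NC A) (C : Finset G) (D : ℝ) (hD : 0 ≤ D)
    (hC : ∀ x ∈ C, ∀ x' ∈ C, ((row A x' \ row A x).card : ℝ) ≤ D) :
    ((∑ x ∈ C, (row A x).card : ℕ) : ℝ) ^ 2 ≤
      Fintype.card G * (((∑ x ∈ C, (row A x).card : ℕ) : ℝ) + (C.card : ℝ) ^ 2 * D) := by
  classical
  set X : G → Finset G := fun s => C.filter (fun x => (x, s - x) ∈ A) with hX
  have h1 : ∑ s : G, (X s).card = ∑ x ∈ C, (row A x).card := by
    simp only [hX, card_filter]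
    rw [sum_comm]
    refine sum_congr rfl fun x _ => ?_
    rw [← card_filter]
    refine card_bij (fun s _ => s - x) ?_ ?_ ?_
    · intro s hs
      simpa [row] using hs
    · intro s _ s' _ h
      simpa using h
    · intro y hy
      refine ⟨y + x, ?_, by abel⟩
      simpa [row] using hy
  have h2 : ∑ s : G, ((X s).card : ℝ) ^ 2 ≤
      ((∑ x ∈ C, (row A x).card : ℕ) : ℝ) + (C.card : ℝ) ^ 2 * D := by
    have e : ∀ s : G, ((X s).card : ℝ) ^ 2 =
        ∑ x ∈ C, ∑ x' ∈ C, if (x, s - x) ∈ A ∧ (x', s - x') ∈ A then (1 : ℝ) else 0 := by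
      intro s
      rw [sq]
      simp only [hX, card_filter, Nat.cast_sum]
      rw [sum_mul_sum]
      refine sum_congr rfl fun x _ => sum_congr rfl fun x' _ => ?_
      by_cases q1 : (x, s - x) ∈ A <;> by_cases q2 : (x', s - x') ∈ A <;> simp [q1, q2]
    simp_rw [e]
    rw [sum_comm]
    have f : ∀ x ∈ C, ∑ s : G, ∑ x' ∈ C,
        (if (x, s - x) ∈ A ∧ (x', s - x') ∈ A then (1 : ℝ) else 0) ≤
        ((row A x).card : ℝ) + C.card * D := by
      intro x hx
      rw [sum_comm]
      have g : ∀ x' ∈ C, ∑ s : G,
          (if (x, s - x) ∈ A ∧ (x', s - x') ∈ A then (1 : ℝ) else 0) ≤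
          (if x' = x then ((row A x).card : ℝ) else 0) + D := by
        intro x' hx'
        have hcount : ∑ s : G, (if (x, s - x) ∈ A ∧ (x', s - x') ∈ A then (1 : ℝ) else 0) =
            ((univ.filter (fun s : G => (x, s - x) ∈ A ∧ (x', s - x') ∈ A)).card : ℝ) := by
          rw [card_filter]; push_cast; rfl
        rw [hcount]
        by_cases hxx : x' = x
        · subst hxx
          rw [if_pos rfl]
          have : (univ.filter (fun s : G => (x', s - x') ∈ A ∧ (x', s - x') ∈ A)).card ≤
              (row A x').card := by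
            refine card_le_card_of_injOn (fun s => s - x') ?_ ?_
            · intro s hs
              simp only [coe_filter, Set.mem_ofPred_eq, mem_univ, true_and] at hs
              simp [row, hs]
            · intro s _ s' _ h
              simpa using h
          have : ((univ.filter (fun s : G => (x', s - x') ∈ A ∧ (x', s - x') ∈ A)).card : ℝ) ≤
              (row A x').card := by exact_mod_cast this
          linarith
        · rw [if_neg hxx, zero_add]
          refine le_trans ?_ (hC x hx x' hx')
          have : (univ.filter (fun s : G => (x, s - x) ∈ A ∧ (x', s - x') ∈ A)).card ≤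
              (row A x' \ row A x).card := by
            refine card_le_card_of_injOn (fun s => s - x') ?_ ?_
            · intro s hs
              simp only [coe_filter, Set.mem_ofPred_eq, mem_univ, true_and] at hs
              simp only [coe_sdiff, Set.mem_sdiff, mem_coe, row, mem_filter, mem_univ, true_and]
              refine ⟨hs.2, fun h3 => ?_⟩
              have := hA x (s - x') (x' - x) (sub_ne_zero.2 hxx)
              apply this
              refine ⟨h3, ?_, ?_⟩
              · have : s - x' + (x' - x) = s - x := by abel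
                rw [this]; exact hs.1
              · have : x + (x' - x) = x' := by abel
                rw [this]; exact hs.2
            · intro s _ s' _ h
              simpa using h
          exact_mod_cast this
      refine (sum_le_sum g).trans ?_
      rw [sum_add_distrib, sum_ite_eq' C x, if_pos hx, sum_const, nsmul_eq_mul]
    refine (sum_le_sum f).trans ?_
    rw [sum_add_distrib, sum_const, nsmul_eq_mul]
    push_cast
    nlinarith [sq_nonneg (C.card : ℝ)]
  have h3 := sq_sum_le_card_mul_sum_sq (s := (univ : Finset G)) (f := fun s => ((X s).card : ℝ))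
  have h4 : ∑ s : G, ((X s).card : ℝ) = ((∑ x ∈ C, (row A x).card : ℕ) : ℝ) := by
    rw [← h1]; push_cast; rfl
  rw [h4, card_univ] at h3
  exact h3.trans (mul_le_mul_of_nonneg_left h2 (Nat.cast_nonneg _))

lemma class_bound (A : Finset (G × G)) (hA : NC A) (C : Finset G) (t : ℝ) (ht : 0 ≤ t)
    (hC : ∀ x ∈ C, ∀ x' ∈ C, ((row A x' \ row A x).card : ℝ) ≤ 2 * t ^ 2 * Fintype.card G) :
    ((∑ x ∈ C, (row A x).card : ℕ) : ℝ) ≤
      2 * Fintype.card G + 2 * t * C.card * Fintype.card G := by
  have hN : (0 : ℝ) < Fintype.card G := by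
    exact_mod_cast Fintype.card_pos_iff.2 ⟨(0 : G)⟩
  have h := class_sq A hA C (2 * t ^ 2 * Fintype.card G) (by positivity) hC
  set E : ℝ := ((∑ x ∈ C, (row A x).card : ℕ) : ℝ) with hE
  have hE0 : 0 ≤ E := by positivity
  set N : ℝ := (Fintype.card G : ℝ)
  set c : ℝ := (C.card : ℝ)
  have hc : 0 ≤ c := by positivity
  by_contra hcon
  push Not at hcon
  have h1 : 2 * N < E := by
    have : 0 ≤ 2 * t * c * N := by positivity
    linarith
  have h2 : 2 * t * c * N < E := by linarith
  have h3 : (2 * t * c * N) ^ 2 ≤ E * (2 * t * c * N) := by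
    rw [sq]; exact mul_le_mul_of_nonneg_right h2.le (by positivity)
  -- E^2 ≤ N E + 2 (t c N)^2
  have h4 : E ^ 2 ≤ N * E + 2 * (t * c * N) ^ 2 := by
    have : N * (E + c ^ 2 * (2 * t ^ 2 * N)) = N * E + 2 * (t * c * N) ^ 2 := by ring
    linarith
  have h5 : N * E < E ^ 2 / 2 := by nlinarith
  have h6 : 2 * (t * c * N) ^ 2 ≤ E ^ 2 / 2 := by
    have : (2 * t * c * N) ^ 2 ≤ E ^ 2 := pow_le_pow_left₀ (by positivity) h2.le 2
    nlinarith
  linarith

/-- Covering the rows by Hamming balls. -/
lemma cover (A : Finset (G × G)) (r : ℝ) (hr : 0 ≤ r) :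
    ∃ R : Finset G, (∀ x ∈ R, ∀ y ∈ R, x ≠ y → r < ((symmDiff (row A x) (row A y)).card : ℝ)) ∧
      ∀ x : G, ∃ y ∈ R, ((symmDiff (row A x) (row A y)).card : ℝ) ≤ r := by
  classical
  let P : Finset G → Prop := fun R =>
    ∀ x ∈ R, ∀ y ∈ R, x ≠ y → r < ((symmDiff (row A x) (row A y)).card : ℝ)
  obtain ⟨R, hR, hmax⟩ := exists_max_image (univ.filter P) card
    ⟨∅, by simp [P]⟩
  rw [mem_filter] at hR
  refine ⟨R, hR.2, fun x => ?_⟩
  by_contra hcon
  push Not at hcon
  have hx : x ∉ R := by
    intro hx
    have := hcon x hx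
    simp only [symmDiff_self, bot_eq_empty, card_empty, Nat.cast_zero] at this
    linarith
  have hP : P (insert x R) := by
    intro a ha b hb hab
    rw [mem_insert] at ha hb
    rcases ha with rfl | ha <;> rcases hb with rfl | hb
    · exact absurd rfl hab
    · exact hcon b hb
    · rw [symmDiff_comm]; exact hcon a ha
    · exact hR.2 a ha b hb hab
  have := hmax (insert x R) (mem_filter.2 ⟨mem_univ _, hP⟩)
  rw [card_insert_of_notMem hx] at this
  omega

/-- Row covering inequality for corner-free sets. -/
theorem covering (A : Finset (G × G)) (hA : NC A) (t : ℝ) (ht : 0 ≤ t) :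
    ∃ R : Finset G, (∀ x ∈ R, ∀ y ∈ R, x ≠ y →
        t ^ 2 * Fintype.card G < ((symmDiff (row A x) (row A y)).card : ℝ)) ∧
      (A.card : ℝ) ≤ 2 * R.card * Fintype.card G + 2 * t * (Fintype.card G : ℝ) ^ 2 := by
  classical
  obtain ⟨R, hR, hcov⟩ := cover A (t ^ 2 * Fintype.card G) (by positivity)
  refine ⟨R, hR, ?_⟩
  choose f hf hf' using hcov
  have h1 : A.card = ∑ y ∈ R, ∑ x ∈ univ.filter (fun x => f x = y), (row A x).card := by
    rw [card_eq_sum_row, sum_fiberwise_of_maps_to (fun x _ => hf x)]
  have h2 : ∀ y ∈ R, ((∑ x ∈ univ.filter (fun x => f x = y), (row A x).card : ℕ) : ℝ) ≤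
      2 * Fintype.card G + 2 * t * (univ.filter (fun x => f x = y)).card * Fintype.card G := by
    intro y _
    refine class_bound A hA _ t ht ?_
    intro x hx x' hx'
    rw [mem_filter] at hx hx'
    have g1 := hf' x
    have g2 := hf' x'
    rw [hx.2] at g1
    rw [hx'.2] at g2
    have g3 : (row A x' \ row A x).card ≤
        (symmDiff (row A x') (row A y)).card + (symmDiff (row A x) (row A y)).card := by
      refine (card_le_card ?_).trans (card_union_le _ _)
      intro z hz
      simp only [mem_sdiff, mem_union, mem_symmDiff] at hz ⊢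
      tauto
    have g4 : ((row A x' \ row A x).card : ℝ) ≤
        ((symmDiff (row A x') (row A y)).card : ℝ) + (symmDiff (row A x) (row A y)).card := by
      exact_mod_cast g3
    linarith
  have h3 : ∑ y ∈ R, ((univ.filter (fun x => f x = y)).card : ℝ) = Fintype.card G := by
    have := card_eq_sum_card_fiberwise (f := f) (s := univ) (t := R) (fun x _ => hf x)
    rw [card_univ] at this
    exact_mod_cast this.symm
  rw [h1]
  push_cast
  have h4 : ∀ y ∈ R, ∑ x ∈ univ.filter (fun x => f x = y), ((row A x).card : ℝ) ≤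
      2 * Fintype.card G + 2 * t * (univ.filter (fun x => f x = y)).card * Fintype.card G := by
    intro y hy
    have := h2 y hy
    push_cast at this
    exact this
  refine (sum_le_sum h4).trans ?_
  rw [sum_add_distrib, sum_const, nsmul_eq_mul, ← sum_mul, ← mul_sum, h3]
  nlinarith

end Pool.Agent.H523R2.VC
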