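import Mathlib

/-!
Separated families of sets of bounded VC dimension (random sampling and Sauer–Shelah).
-/

namespace Pool.Agent.H523R2.VC

open Finset

variable {Ω : Type*} [Fintype Ω] [DecidableEq Ω]

lemma sum_choose_le (m d : ℕ) : ∑ k ∈ range (d + 1), m.choose k ≤ (m + 1) ^ d := by
  rw [add_pow]
  refine sum_le_sum fun k hk => ?_
  rw [one_pow, mul_one]
  have h1 : m.choose k ≤ m ^ k := Nat.choose_le_pow m k
  have h2 : 1 ≤ d.choose k := Nat.choose_pos (by simpa [Nat.lt_succ_iff] using mem_range.1 hk)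
  calc m.choose k ≤ m ^ k := h1
    _ = m ^ k * 1 := (mul_one _).symm
    _ ≤ m ^ k * d.choose k := Nat.mul_le_mul_left _ h2

/-- traces on a set of at most `m` points -/
lemma card_traces_le (𝒜 : Finset (Finset Ω)) (M : Finset Ω) {d m : ℕ} (hd : 𝒜.vcDim ≤ d)
    (hM : M.card ≤ m) : (𝒜.image (fun s => M ∩ s)).card ≤ (m + 1) ^ d := by
  classical
  set T := 𝒜.image (fun s => M ∩ s) with hT
  have h1 : T.shatterer ⊆ (M.powerset).filter (fun s => s.card ≤ d) := by
    intro s hs
    rw [mem_shatterer] at hs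
    have hsM : s ⊆ M := by
      obtain ⟨u, hu, hsu⟩ := hs.exists_superset
      obtain ⟨v, _, rfl⟩ := mem_image.1 hu
      exact hsu.trans inter_subset_left
    have hsh : 𝒜.Shatters s := by
      intro t ht
      obtain ⟨u, hu, hsu⟩ := hs ht
      obtain ⟨v, hv, rfl⟩ := mem_image.1 hu
      refine ⟨v, hv, ?_⟩
      rw [← hsu, ← inter_assoc, inter_eq_left.2 hsM]
    exact mem_filter.2 ⟨mem_powerset.2 hsM, hsh.card_le_vcDim.trans hd⟩
  have h2 : ((M.powerset).filter (fun s => s.card ≤ d)).card ≤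
      ∑ k ∈ range (d + 1), M.card.choose k := by
    have : (M.powerset).filter (fun s => s.card ≤ d) ⊆
        (range (d + 1)).biUnion (fun k => powersetCard k M) := by
      intro s hs
      rw [mem_filter, mem_powerset] at hs
      rw [mem_biUnion]
      exact ⟨s.card, mem_range.2 (Nat.lt_succ_of_le hs.2), mem_powersetCard.2 ⟨hs.1, rfl⟩⟩
    refine (card_le_card this).trans (card_biUnion_le.trans ?_)
    exact le_of_eq (sum_congr rfl fun k _ => card_powersetCard k M)
  calc T.card ≤ T.shatterer.card := card_le_card_shatterer T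
    _ ≤ _ := card_le_card h1
    _ ≤ _ := h2
    _ ≤ (M.card + 1) ^ d := sum_choose_le _ _
    _ ≤ (m + 1) ^ d := Nat.pow_le_pow_left (by omega) d

/-- A family of sets indexed by `R`, pairwise at distance more than `δ |Ω|`, of VC dimension at
most `d`, has at most `(m+1)^d` members as soon as `|R|^2 (1-δ)^m ≤ 1`. -/
theorem packing {ι : Type*} [DecidableEq ι] [Nonempty Ω] (R : Finset ι) (F : ι → Finset Ω)
    {d m : ℕ} (hd : (R.image F).vcDim ≤ d) (δ : ℝ) (hδ1 : δ < 1)
    (hsep : ∀ x ∈ R, ∀ y ∈ R, x ≠ y → δ * Fintype.card Ω < ((symmDiff (F x) (F y)).card : ℝ))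
    (hm : (R.card : ℝ) ^ 2 * (1 - δ) ^ m ≤ 1) : R.card ≤ (m + 1) ^ d := by
  classical
  have hN : (0 : ℝ) < Fintype.card Ω := by exact_mod_cast Fintype.card_pos
  -- a tuple of points separating all pairs
  have key : ∃ t : Fin m → Ω, ∀ x ∈ R, ∀ y ∈ R, x ≠ y → ∃ i, t i ∈ symmDiff (F x) (F y) := by
    by_contra hcon
    push Not at hcon
    -- all tuples are bad
    let bad : ι × ι → Finset (Fin m → Ω) := fun p =>
      Fintype.piFinset (fun _ : Fin m => (symmDiff (F p.1) (F p.2))ᶜ)
    have hall : (univ : Finset (Fin m → Ω)) ⊆ (R.offDiag).biUnion bad := by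
      intro t _
      obtain ⟨x, hx, y, hy, hxy, h⟩ := hcon t
      rw [mem_biUnion]
      refine ⟨(x, y), mem_offDiag.2 ⟨hx, hy, hxy⟩, ?_⟩
      rw [Fintype.mem_piFinset]
      intro i
      rw [mem_compl]
      exact h i
    have hne : R.offDiag.Nonempty := by
      obtain ⟨x, hx, y, hy, hxy, h⟩ := hcon (fun _ => Classical.arbitrary Ω)
      exact ⟨(x, y), mem_offDiag.2 ⟨hx, hy, hxy⟩⟩
    have hcard : ∀ p ∈ R.offDiag, ((bad p).card : ℝ) ≤ ((1 - δ) * Fintype.card Ω) ^ m := by
      intro p hp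
      rw [mem_offDiag] at hp
      rw [Fintype.card_piFinset, prod_const, card_univ, Fintype.card_fin]
      push_cast
      refine pow_le_pow_left₀ (by positivity) ?_ m
      rw [card_compl, Nat.cast_sub (card_le_univ _)]
      have := hsep p.1 hp.1 p.2 hp.2.1 hp.2.2
      linarith
    have h1 : (Fintype.card Ω : ℝ) ^ m ≤
        (R.offDiag.card : ℝ) * ((1 - δ) * Fintype.card Ω) ^ m := by
      have e1 : ((univ : Finset (Fin m → Ω)).card : ℝ) = (Fintype.card Ω : ℝ) ^ m := by
        rw [card_univ, Fintype.card_fun, Fintype.card_fin]; push_cast; rfl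
      rw [← e1]
      have e2 : ((univ : Finset (Fin m → Ω)).card : ℝ) ≤ ∑ p ∈ R.offDiag, ((bad p).card : ℝ) := by
        exact_mod_cast (card_le_card hall).trans card_biUnion_le
      refine e2.trans ((sum_le_sum hcard).trans ?_)
      rw [sum_const, nsmul_eq_mul]
    have h2 : (R.offDiag.card : ℝ) < (R.card : ℝ) ^ 2 := by
      rw [offDiag_card]
      have hR : 1 ≤ R.card := by
        obtain ⟨p, hp⟩ := hne
        exact card_pos.2 ⟨p.1, (mem_offDiag.1 hp).1⟩
      have : R.card * R.card - R.card < R.card ^ 2 := by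
        rw [sq]
        exact Nat.sub_lt (Nat.mul_pos hR hR) hR
      exact_mod_cast this
    rw [mul_pow] at h1
    have h3 : (0 : ℝ) < (1 - δ) ^ m := pow_pos (by linarith) m
    have h4 : (0 : ℝ) < (Fintype.card Ω : ℝ) ^ m := pow_pos hN m
    have h5 : (R.offDiag.card : ℝ) * ((1 - δ) ^ m * (Fintype.card Ω : ℝ) ^ m) <
        (R.card : ℝ) ^ 2 * ((1 - δ) ^ m * (Fintype.card Ω : ℝ) ^ m) :=
      mul_lt_mul_of_pos_right h2 (mul_pos h3 h4)
    have h6 : (R.card : ℝ) ^ 2 * ((1 - δ) ^ m * (Fintype.card Ω : ℝ) ^ m) ≤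
        1 * (Fintype.card Ω : ℝ) ^ m := by
      rw [← mul_assoc]
      exact mul_le_mul_of_nonneg_right hm h4.le
    linarith
  obtain ⟨t, ht⟩ := key
  set M : Finset Ω := univ.image t with hMdef
  have hM : M.card ≤ m := by
    refine card_image_le.trans ?_
    rw [card_univ, Fintype.card_fin]
  have hinj : Set.InjOn (fun x => M ∩ F x) (R : Set ι) := by
    intro x hx y hy hxy
    by_contra hne
    obtain ⟨i, hi⟩ := ht x hx y hy hne
    have hiM : t i ∈ M := mem_image_of_mem t (mem_univ i)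
    have hxy' : M ∩ F x = M ∩ F y := hxy
    rw [mem_symmDiff] at hi
    have e : t i ∈ M ∩ F x ↔ t i ∈ M ∩ F y := by rw [hxy']
    simp only [mem_inter, hiM, true_and] at e
    tauto
  calc R.card = (R.image (fun x => M ∩ F x)).card := (card_image_of_injOn hinj).symm
    _ = ((R.image F).image (fun s => M ∩ s)).card := by rw [image_image]; rfl
    _ ≤ (m + 1) ^ d := card_traces_le _ M hd hM

end Pool.Agent.H523R2.VC
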